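import Pool.Agent.H68.ICG.Prod

/-!
The groups `K ⋊ C`, where `K` is the field with `p ^ 3` elements and `C` is the subgroup of order
`p ^ 2 + p + 1` of its multiplicative group, for the primes `p` such that `p ^ 2 + p + 1` is prime.
-/

open H68IC H68ICG

set_option linter.unusedSectionVars false

namespace H68ICP

/-- The group of the maps `x ↦ a x + b` with `a ∈ C`. -/
@[ext]
structure AffC {K : Type} [Field K] (C : Subgroup Kˣ) where
  /-- linear part -/
  a : C
  /-- translation part -/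
  b : K

section Aff

variable {K : Type} [Field K] {C : Subgroup Kˣ}

/-- the underlying element of the field -/
def v (a : C) : K := ((a : Kˣ) : K)

theorem v_mul (a b : C) : v (a * b) = v a * v b := by
  show (((a * b : C) : Kˣ) : K) = _
  rw [Subgroup.coe_mul, Units.val_mul]; rfl

theorem v_one : v (1 : C) = 1 := rfl

theorem v_inv_mul (a : C) : v a⁻¹ * v a = 1 := by
  rw [← v_mul, inv_mul_cancel, v_one]

theorem v_mul_inv (a : C) : v a * v a⁻¹ = 1 := by
  rw [← v_mul, mul_inv_cancel, v_one]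

theorem v_ne_zero (a : C) : v a ≠ 0 := Units.ne_zero _

theorem v_inj {a b : C} (h : v a = v b) : a = b := Subtype.ext (Units.ext h)

instance : Group (AffC C) where
  mul x y := ⟨x.a * y.a, v x.a * y.b + x.b⟩
  one := ⟨1, 0⟩
  inv x := ⟨x.a⁻¹, -(v x.a⁻¹ * x.b)⟩
  mul_assoc x y z := by
    apply AffC.ext
    · exact mul_assoc _ _ _
    · show v (x.a * y.a) * z.b + (v x.a * y.b + x.b) = v x.a * (v y.a * z.b + y.b) + x.b
      rw [v_mul]; ring
  one_mul x := by
    apply AffC.ext
    · exact one_mul _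
    · show v (1 : C) * x.b + 0 = x.b
      rw [v_one]; ring
  mul_one x := by
    apply AffC.ext
    · exact mul_one _
    · show v x.a * 0 + x.b = x.b
      ring
  inv_mul_cancel x := by
    apply AffC.ext
    · exact inv_mul_cancel _
    · show v x.a⁻¹ * x.b + -(v x.a⁻¹ * x.b) = 0
      ring

theorem mul_a (x y : AffC C) : (x * y).a = x.a * y.a := rfl
theorem mul_b (x y : AffC C) : (x * y).b = v x.a * y.b + x.b := rfl
theorem inv_a (x : AffC C) : (x⁻¹).a = x.a⁻¹ := rfl
theorem inv_b (x : AffC C) : (x⁻¹).b = -(v x.a⁻¹ * x.b) := rfl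

instance [Finite K] : Finite (AffC C) :=
  Finite.of_injective (fun x : AffC C => (x.a, x.b)) (fun x y h => by
    apply AffC.ext
    · exact congrArg Prod.fst h
    · exact congrArg Prod.snd h)

/-- the linear part -/
def lin : AffC C →* C where
  toFun := AffC.a
  map_one' := rfl
  map_mul' _ _ := rfl

/-- the translations by the elements of `W` -/
def vsub (C : Subgroup Kˣ) (W : AddSubgroup K) : Subgroup (AffC C) where
  carrier := {x | x.a = 1 ∧ x.b ∈ W}
  mul_mem' {x y} hx hy := by
    refine ⟨by rw [mul_a, hx.1, hy.1, one_mul], ?_⟩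
    rw [mul_b, hx.1, v_one, one_mul]
    exact W.add_mem hy.2 hx.2
  one_mem' := ⟨rfl, W.zero_mem⟩
  inv_mem' {x} hx := by
    refine ⟨by rw [inv_a, hx.1, inv_one], ?_⟩
    rw [inv_b, hx.1, inv_one, v_one, one_mul]
    exact W.neg_mem hx.2

theorem card_vsub (W : AddSubgroup K) : Nat.card (vsub C W) = Nat.card W := by
  refine Nat.card_congr ⟨fun x => ⟨x.1.b, x.2.2⟩, fun w => ⟨⟨1, w.1⟩, rfl, w.2⟩, fun x => ?_,
    fun w => rfl⟩
  apply Subtype.ext
  apply AffC.ext
  · exact x.2.1.symm
  · rfl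

/-- the translation part of a subgroup -/
def tpart (H : Subgroup (AffC C)) : AddSubgroup K where
  carrier := {w | (⟨1, w⟩ : AffC C) ∈ H}
  add_mem' {v w} hv hw := by
    have := H.mul_mem hw hv
    have e : (⟨1, w⟩ : AffC C) * ⟨1, v⟩ = ⟨1, v + w⟩ := by
      apply AffC.ext
      · exact one_mul _
      · show (1 : K) * v + w = v + w
        ring
    rw [e] at this
    exact this
  zero_mem' := H.one_mem
  neg_mem' {w} hw := by
    have := H.inv_mem hw
    have e : (⟨1, w⟩ : AffC C)⁻¹ = ⟨1, -w⟩ := by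
      apply AffC.ext
      · exact inv_one
      · rw [inv_b]
        show -(v (1 : C)⁻¹ * w) = -w
        rw [inv_one, v_one, one_mul]
    rw [e] at this
    exact this

theorem eq_vsub {H : Subgroup (AffC C)} (h : ∀ x ∈ H, x.a = 1) : H = vsub C (tpart H) := by
  ext x
  constructor
  · intro hx
    refine ⟨h x hx, ?_⟩
    have : (⟨1, x.b⟩ : AffC C) = x := AffC.ext (h x hx).symm rfl
    show (⟨1, x.b⟩ : AffC C) ∈ H
    rw [this]; exact hx
  · rintro ⟨h1, h2⟩
    have : (⟨1, x.b⟩ : AffC C) = x := AffC.ext h1.symm rfl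
    rw [← this]; exact h2

theorem conj_tr (g : AffC C) (w : K) : g⁻¹ * ⟨1, w⟩ * g = ⟨1, v g.a⁻¹ * w⟩ := by
  apply AffC.ext
  · show g.a⁻¹ * 1 * g.a = 1
    simp
  · show v (g.a⁻¹ * 1) * g.b + (v g.a⁻¹ * w + -(v g.a⁻¹ * g.b)) = v g.a⁻¹ * w
    rw [mul_one]; ring

/-- the homotheties -/
def hsub (C : Subgroup Kˣ) : Subgroup (AffC C) where
  carrier := {x | x.b = 0}
  mul_mem' {x y} hx hy := by
    show v x.a * y.b + x.b = 0
    rw [show x.b = 0 from hx, show y.b = 0 from hy]; ring
  one_mem' := rfl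
  inv_mem' {x} hx := by
    show -(v x.a⁻¹ * x.b) = 0
    rw [show x.b = 0 from hx]; ring

theorem card_hsub : Nat.card (hsub C) = Nat.card C := by
  refine Nat.card_congr ⟨fun x => x.1.a, fun a => ⟨⟨a, 0⟩, rfl⟩, fun x => ?_, fun w => rfl⟩
  apply Subtype.ext
  apply AffC.ext
  · rfl
  · exact x.2.symm

variable [Finite K] {p : ℕ} [hp : Fact p.Prime] [Algebra (ZMod p) K] (hK : Nat.card K = p ^ 3)
  (hC : Nat.card C = p ^ 2 + p + 1) (hq : (p ^ 2 + p + 1).Prime)

include hK

theorem card_cases (W : AddSubgroup K) :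
    Nat.card W = 1 ∨ Nat.card W = p ∨ Nat.card W = p ^ 2 ∨ Nat.card W = p ^ 3 := by
  have h := AddSubgroup.card_addSubgroup_dvd_card W
  rw [hK] at h
  obtain ⟨m, hm, h2⟩ := (Nat.dvd_prime_pow hp.out).1 h
  interval_cases m
  · left; simpa using h2
  · right; left; simpa using h2
  · right; right; left; exact h2
  · right; right; right; exact h2

include hC hq

/-- structure of the subgroups which are not contained in the translations -/
theorem classify (H : Subgroup (AffC C)) (h : ∃ x ∈ H, x.a ≠ 1) :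
    H = ⊤ ∨ (SubConj H (hsub C) ∧ Nat.card H = p ^ 2 + p + 1) := by
  have hmap : H.map lin = ⊤ := by
    have hp : (Nat.card C).Prime := by rw [hC]; exact hq
    have := Fact.mk hp
    rcases Subgroup.eq_bot_or_eq_top_of_prime_card (H.map (lin (C := C))) with h1 | h1
    · exfalso
      obtain ⟨x, hx, hxa⟩ := h
      apply hxa
      have : lin x ∈ H.map (lin (C := C)) := ⟨x, hx, rfl⟩
      rw [h1, Subgroup.mem_bot] at this
      exact this
    · exact h1
  have hsurj : ∀ a : C, ∃ b : K, (⟨a, b⟩ : AffC C) ∈ H := by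
    intro a
    have : a ∈ H.map (lin (C := C)) := by rw [hmap]; trivial
    obtain ⟨x, hx, rfl⟩ := this
    exact ⟨x.b, hx⟩
  have hinv : ∀ (a : C) (w : K), w ∈ tpart H → v a * w ∈ tpart H := by
    intro a w hw
    obtain ⟨b, hb⟩ := hsurj a⁻¹
    have h1 := H.mul_mem (H.mul_mem (H.inv_mem hb) hw) hb
    have h2 := conj_tr (⟨a⁻¹, b⟩ : AffC C) w
    rw [h2] at h1
    have h3 : (⟨1, v (a⁻¹)⁻¹ * w⟩ : AffC C) ∈ H := h1
    rw [inv_inv] at h3
    exact h3
  by_cases hT : ∃ w ∈ tpart H, w ≠ 0
  · left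
    obtain ⟨w, hw, hw0⟩ := hT
    have htop : tpart H = ⊤ := by
      apply AddSubgroup.eq_top_of_card_eq
      have h1 : Nat.card C ≤ Nat.card (tpart H) := by
        refine Nat.card_le_card_of_injective (fun a : C => (⟨v a * w, hinv a w hw⟩ : tpart H)) ?_
        intro a b hab
        have h2 : v a * w = v b * w := congrArg Subtype.val hab
        exact v_inj (mul_right_cancel₀ hw0 h2)
      rw [hC] at h1
      rw [hK]
      have hp1 := hp.out.one_lt
      rcases card_cases hK (tpart H) with h2 | h2 | h2 | h2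
      · nlinarith
      · nlinarith
      · nlinarith
      · exact h2
    rw [eq_top_iff]
    intro x _
    obtain ⟨b, hb⟩ := hsurj x.a
    have h1 := H.mul_mem (show (⟨1, x.b - b⟩ : AffC C) ∈ H from by
      have : x.b - b ∈ tpart H := by rw [htop]; trivial
      exact this) hb
    have h2 : (⟨1, x.b - b⟩ : AffC C) * ⟨x.a, b⟩ = x := by
      apply AffC.ext
      · exact one_mul _
      · show (1 : K) * b + (x.b - b) = x.b
        ring
    rw [h2] at h1
    exact h1
  · right
    push Not at hT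
    have hker : ∀ x ∈ H, x.a = 1 → x = 1 := by
      intro x hx hxa
      have h1 : x = ⟨1, x.b⟩ := AffC.ext hxa rfl
      have h2 : x.b ∈ tpart H := by
        show (⟨1, x.b⟩ : AffC C) ∈ H
        rw [← h1]; exact hx
      exact AffC.ext hxa (hT _ h2)
    constructor
    · obtain ⟨x₀, hx₀, ha₀⟩ := h
      have hne : (1 : K) - v x₀.a ≠ 0 := by
        intro h0
        apply ha₀
        apply v_inj
        rw [v_one]
        exact (sub_eq_zero.1 h0).symm
      rw [subConj_iff]
      refine ⟨⟨1, x₀.b / (1 - v x₀.a)⟩, fun x hx => ?_⟩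
      have hcomm : x * x₀ = x₀ * x := by
        have h1 : (x * x₀) * (x₀ * x)⁻¹ ∈ H :=
          H.mul_mem (H.mul_mem hx hx₀) (H.inv_mem (H.mul_mem hx₀ hx))
        have h2 := hker _ h1 (by
          show (x.a * x₀.a) * (x₀.a * x.a)⁻¹ = 1
          rw [mul_comm x.a x₀.a, mul_inv_cancel])
        exact mul_inv_eq_one.1 h2
      have hb : v x.a * x₀.b + x.b = v x₀.a * x.b + x₀.b := congrArg AffC.b hcomm
      show v ((1 : C)⁻¹ * x.a) * (x₀.b / (1 - v x₀.a)) + (v (1 : C)⁻¹ * x.b +
        -(v (1 : C)⁻¹ * (x₀.b / (1 - v x₀.a)))) = 0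
      simp only [inv_one, one_mul, v_one]
      field_simp
      linear_combination hb
    · have hinj : Function.Injective (fun x : H => lin x.1) := by
        intro x y hxy
        have h1 : x.1 * y.1⁻¹ = 1 := hker _ (H.mul_mem x.2 (H.inv_mem y.2)) (by
          have hxy' : x.1.a = y.1.a := hxy
          show x.1.a * y.1.a⁻¹ = 1
          rw [hxy', mul_inv_cancel])
        exact Subtype.ext (mul_inv_eq_one.1 h1)
      rw [← hC]
      refine Nat.card_congr (Equiv.ofBijective (fun x : H => lin x.1) ⟨hinj, fun a => ?_⟩)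
      obtain ⟨b, hb⟩ := hsurj a
      exact ⟨⟨_, hb⟩, rfl⟩

omit hC hq

theorem finrank_eq : Module.finrank (ZMod p) K = 3 := by
  have h := Module.natCard_eq_pow_finrank (K := ZMod p) (V := K)
  rw [hK, Nat.card_zmod] at h
  exact (Nat.pow_right_injective hp.out.two_le h).symm

theorem exists_functional (W : AddSubgroup K) (hW : W ≠ ⊤) :
    ∃ f : Module.Dual (ZMod p) K, f ≠ 0 ∧ ∀ w ∈ W, f w = 0 := by
  let S : Submodule (ZMod p) K := AddSubgroup.toZModSubmodule p W
  have hS : S < ⊤ := by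
    rw [lt_top_iff_ne_top]
    intro h
    apply hW
    rw [eq_top_iff]
    intro x _
    have : x ∈ S := by rw [h]; trivial
    exact this
  obtain ⟨f, hf, hle⟩ := Submodule.exists_le_ker_of_lt_top S hS
  exact ⟨f, hf, fun w hw => hle hw⟩

theorem functional_conj (f g : Module.Dual (ZMod p) K) (hf : f ≠ 0) (hg : g ≠ 0) :
    ∃ c : Kˣ, ∀ x, g x = f (c * x) := by
  let m : K →ₗ[ZMod p] Module.Dual (ZMod p) K :=
    { toFun := fun c => f.comp (LinearMap.mulLeft (ZMod p) c)
      map_add' := fun c d => by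
        apply LinearMap.ext
        intro x
        show f ((c + d) * x) = f (c * x) + f (d * x)
        rw [add_mul, map_add]
      map_smul' := fun r c => by
        apply LinearMap.ext
        intro x
        show f ((r • c) * x) = r • f (c * x)
        rw [smul_mul_assoc, map_smul] }
  have hinj : Function.Injective m := by
    rw [← LinearMap.ker_eq_bot, LinearMap.ker_eq_bot']
    intro c hc
    by_contra hc0
    apply hf
    apply LinearMap.ext
    intro x
    have := LinearMap.congr_fun hc (c⁻¹ * x)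
    have h2 : f (c * (c⁻¹ * x)) = 0 := this
    rw [mul_inv_cancel_left₀ hc0] at h2
    exact h2
  have hsurj : Function.Surjective m :=
    (LinearMap.injective_iff_surjective_of_finrank_eq_finrank
      (Subspace.dual_finrank_eq (K := ZMod p) (V := K)).symm).1 hinj
  obtain ⟨c, hc⟩ := hsurj g
  have hc0 : c ≠ 0 := by
    rintro rfl
    apply hg
    rw [← hc, map_zero]
  exact ⟨Units.mk0 c hc0, fun x => (LinearMap.congr_fun hc x).symm⟩

theorem addOrder (w : K) (hw : w ≠ 0) : addOrderOf w = p := by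
  refine addOrderOf_eq_prime ?_ hw
  haveI : CharP K p := charP_of_injective_algebraMap (algebraMap (ZMod p) K).injective p
  rw [nsmul_eq_mul, CharP.cast_eq_zero, zero_mul]

/-- subgroups of the additive group are ordered by their order, up to homothety -/
theorem add_conj₀ (W W' : AddSubgroup K) (h : Nat.card W ≤ Nat.card W') :
    ∃ c : Kˣ, ∀ w ∈ W, (c : K) * w ∈ W' := by
  have hp1 := hp.out.one_lt
  have hpp : p < p ^ 2 := by nlinarith
  have hppp : p ^ 2 < p ^ 3 := by nlinarith
  by_cases h1 : W' = ⊤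
  · exact ⟨1, fun w _ => by rw [h1]; trivial⟩
  by_cases h2 : ∀ w ∈ W, w = 0
  · exact ⟨1, fun w hw => by rw [h2 w hw, mul_zero]; exact W'.zero_mem⟩
  push Not at h2
  obtain ⟨w₀, hw₀, hw₀'⟩ := h2
  have h8 : Nat.card W' ≠ p ^ 3 := by
    intro h8
    apply h1
    exact AddSubgroup.eq_top_of_card_eq _ (by rw [h8, hK])
  have hW1 : Nat.card W ≠ 1 := by
    intro h0
    rw [AddSubgroup.card_eq_one] at h0
    rw [h0, AddSubgroup.mem_bot] at hw₀
    exact hw₀' hw₀
  rcases card_cases hK W with h3 | h3 | h3 | h3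
  · exact absurd h3 hW1
  · -- order p
    have hW : W = AddSubgroup.zmultiples w₀ := by
      symm
      refine AddSubgroup.eq_of_le_of_card_ge ?_ ?_
      · rw [AddSubgroup.zmultiples_le]
        exact hw₀
      · rw [Nat.card_zmultiples, addOrder hK w₀ hw₀', h3]
    have hW' : ∃ w ∈ W', w ≠ 0 := by
      by_contra hcon
      push Not at hcon
      have h0 : W' = ⊥ := by
        rw [eq_bot_iff]
        intro x hx
        exact hcon x hx
      rw [h0, AddSubgroup.card_bot] at h
      omega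
    obtain ⟨w₁, hw₁, hw₁'⟩ := hW'
    refine ⟨Units.mk0 (w₁ / w₀) (div_ne_zero hw₁' hw₀'), fun w hw => ?_⟩
    rw [hW, AddSubgroup.mem_zmultiples_iff] at hw
    obtain ⟨n, rfl⟩ := hw
    rw [Units.val_mk0, mul_smul_comm, div_mul_cancel₀ _ hw₀']
    exact W'.zsmul_mem hw₁ n
  · -- order p ^ 2
    have h4 : Nat.card W' = p ^ 2 := by
      rcases card_cases hK W' with h5 | h5 | h5 | h5
      · omega
      · omega
      · exact h5
      · exact absurd h5 h8
    have hWt : W ≠ ⊤ := by
      rintro rfl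
      rw [AddSubgroup.card_top, hK] at h3
      omega
    obtain ⟨g, hg, hgW⟩ := exists_functional hK W hWt
    obtain ⟨f, hf, hfW⟩ := exists_functional hK W' h1
    obtain ⟨c, hc⟩ := functional_conj hK f g hf hg
    have hker : W' = (LinearMap.ker f).toAddSubgroup := by
      refine AddSubgroup.eq_of_le_of_card_ge (fun w hw => hfW w hw) ?_
      rcases card_cases hK (LinearMap.ker f).toAddSubgroup with h5 | h5 | h5 | h5
      · omega
      · omega
      · omega
      · exfalso
        apply hf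
        have h6 : (LinearMap.ker f).toAddSubgroup = ⊤ :=
          AddSubgroup.eq_top_of_card_eq _ (by rw [h5, hK])
        apply LinearMap.ext
        intro x
        have : x ∈ (LinearMap.ker f).toAddSubgroup := by rw [h6]; trivial
        exact this
    refine ⟨c, fun w hw => ?_⟩
    rw [hker]
    show f (c * w) = 0
    rw [← hc]
    exact hgW w hw
  · exfalso
    have := card_cases hK W'
    omega

theorem card_units : Nat.card Kˣ = (p - 1) * (p ^ 2 + p + 1) := by
  rw [Nat.card_units, hK]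
  obtain ⟨m, hm⟩ : ∃ m, p = m + 1 := ⟨p - 1, by have := hp.out.one_lt; omega⟩
  rw [hm]
  refine Nat.sub_eq_of_eq_add ?_
  rw [Nat.add_sub_cancel]
  ring

theorem exists_int (l : Kˣ) (h : l ^ (p - 1) = 1) : ∃ n : ℤ, (n : K) = (l : K) := by
  haveI : CharP K p := charP_of_injective_algebraMap (algebraMap (ZMod p) K).injective p
  refine (mem_bot_iff_intCast p K).1 ((Subfield.mem_bot_iff_pow_eq_self K p).2 ?_)
  have h1 : l ^ p = l := by
    have e : p = (p - 1) + 1 := by have := hp.out.one_lt; omega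
    conv_lhs => rw [e]
    rw [pow_succ, h, one_mul]
  rw [← Units.val_pow_eq_pow_val, h1]

include hC hq

theorem mem_C (x : Kˣ) (hx : x ^ (p ^ 2 + p + 1) = 1) : x ∈ C := by
  classical
  have := Fintype.ofFinite Kˣ
  have h1 := IsCyclic.card_pow_eq_one_le (α := Kˣ) (n := p ^ 2 + p + 1) (by omega)
  have h2 : (C : Set Kˣ).toFinset ⊆ Finset.univ.filter (fun a => a ^ (p ^ 2 + p + 1) = 1) := by
    intro a ha
    rw [Set.mem_toFinset] at ha
    rw [Finset.mem_filter]
    refine ⟨Finset.mem_univ _, ?_⟩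
    have h3 : (⟨a, ha⟩ : C) ^ (Nat.card C) = 1 := pow_card_eq_one'
    rw [hC] at h3
    exact congrArg Subtype.val h3
  have h4 : (C : Set Kˣ).toFinset.card = p ^ 2 + p + 1 := by
    rw [← hC]
    exact (Nat.card_eq_card_toFinset (C : Set Kˣ)).symm
  have h3 := Finset.eq_of_subset_of_card_le h2 (by rw [h4]; exact h1)
  have h5 : x ∈ (C : Set Kˣ).toFinset := by
    rw [h3, Finset.mem_filter]
    exact ⟨Finset.mem_univ _, hx⟩
  rw [Set.mem_toFinset] at h5
  exact h5

theorem decomp (c : Kˣ) : ∃ (c' : C) (n : ℤ), v c' = (n : K) * c := by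
  have hp1 := hp.out.one_lt
  have hcop : (p - 1).Coprime (p ^ 2 + p + 1) := by
    rw [Nat.coprime_comm, Nat.Prime.coprime_iff_not_dvd hq]
    intro hd
    have := Nat.le_of_dvd (by omega) hd
    nlinarith [Nat.sub_le p 1]
  let e := (Nat.chineseRemainder hcop 0 1).1
  have he1 : e ≡ 0 [MOD p - 1] := (Nat.chineseRemainder hcop 0 1).2.1
  have he2 : e ≡ 1 [MOD p ^ 2 + p + 1] := (Nat.chineseRemainder hcop 0 1).2.2
  have h1 : (c ^ e) ^ (p ^ 2 + p + 1) = 1 := by
    rw [← pow_mul]
    have h2 : e * (p ^ 2 + p + 1) ≡ 0 * (p ^ 2 + p + 1) [MOD (p - 1) * (p ^ 2 + p + 1)] :=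
      Nat.ModEq.mul_right' _ he1
    rw [← card_units hK] at h2
    rw [← pow_mod_natCard c, h2, pow_mod_natCard, Nat.zero_mul, pow_zero]
  have h3 : (c ^ e * c⁻¹) ^ (p - 1) = 1 := by
    rw [mul_pow, ← pow_mul, inv_pow]
    have h2 : e * (p - 1) ≡ 1 * (p - 1) [MOD (p ^ 2 + p + 1) * (p - 1)] :=
      Nat.ModEq.mul_right' _ he2
    rw [Nat.mul_comm (p ^ 2 + p + 1), ← card_units hK] at h2
    rw [← pow_mod_natCard c (e * (p - 1)), h2, pow_mod_natCard, Nat.one_mul, mul_inv_cancel]
  obtain ⟨n, hn⟩ := exists_int hK _ h3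
  refine ⟨⟨c ^ e, mem_C hK hC hq _ h1⟩, n, ?_⟩
  rw [hn]
  show ((c ^ e : Kˣ) : K) = _
  rw [← Units.val_mul, inv_mul_cancel_right]

/-- the key lemma: subgroups of the additive group are ordered by their order, up to `C` -/
theorem add_conj (W W' : AddSubgroup K) (h : Nat.card W ≤ Nat.card W') :
    ∃ c : C, ∀ w ∈ W, v c * w ∈ W' := by
  obtain ⟨c, hc⟩ := add_conj₀ hK W W' h
  obtain ⟨c', n, hn⟩ := decomp hK hC hq c
  refine ⟨c', fun w hw => ?_⟩
  rw [hn, mul_assoc, ← zsmul_eq_mul]
  exact W'.zsmul_mem (hc w hw) n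

end Aff

end H68ICP
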