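import Pool.Agent.H68.ICP.Grp

/-!
The poset of classes of subgroups of `K ⋊ C`, and the products of these groups.
-/

open CategoryTheory H68IC H68ICG

set_option linter.unusedSectionVars false

namespace H68ICP

section Main

variable {K : Type} [Field K] {C : Subgroup Kˣ}

theorem a_of_subConj {H : Subgroup (AffC C)} {W : AddSubgroup K} (h : SubConj H (vsub C W)) :
    ∀ x ∈ H, x.a = 1 := by
  rw [subConj_iff] at h
  obtain ⟨g, hg⟩ := h
  intro x hx
  have h1 : g.a⁻¹ * x.a * g.a = 1 := (hg x hx).1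
  rw [mul_comm g.a⁻¹ x.a, mul_assoc, inv_mul_cancel, mul_one] at h1
  exact h1

variable [Finite K] {p : ℕ} [hp : Fact p.Prime] [Algebra (ZMod p) K] (hK : Nat.card K = p ^ 3)
  (hC : Nat.card C = p ^ 2 + p + 1) (hq : (p ^ 2 + p + 1).Prime)

include hK

theorem exists_half (W : AddSubgroup K) (hW : Nat.card W ≠ 1) :
    ∃ W₁ : AddSubgroup K, p * Nat.card W₁ = Nat.card W := by
  rcases card_cases hK W with h | h | h | h
  · exact absurd h hW
  · exact ⟨⊥, by rw [AddSubgroup.card_bot, h, mul_one]⟩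
  · refine ⟨AddSubgroup.zmultiples 1, ?_⟩
    rw [Nat.card_zmultiples, h, addOrder hK 1 one_ne_zero]
    ring
  · have hpos : 0 < Module.finrank (ZMod p) K := by rw [finrank_eq hK]; norm_num
    obtain ⟨f, hf⟩ : ∃ f : Module.Dual (ZMod p) K, f ≠ 0 := by
      obtain ⟨f, hf, _⟩ := exists_functional hK ⊥ (by
        intro h0
        have : Nat.card (⊥ : AddSubgroup K) = Nat.card (⊤ : AddSubgroup K) := by rw [h0]
        rw [AddSubgroup.card_bot, AddSubgroup.card_top, hK] at this
        have h1 : 1 < p ^ 3 := Nat.one_lt_pow (by norm_num) hp.out.one_lt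
        omega)
      exact ⟨f, hf⟩
    refine ⟨(LinearMap.ker f).toAddSubgroup, ?_⟩
    have h1 := Module.Dual.finrank_ker_add_one_of_ne_zero hf
    rw [finrank_eq hK] at h1
    have h2 := Module.natCard_eq_pow_finrank (K := ZMod p) (V := LinearMap.ker f)
    have h3 : Module.finrank (ZMod p) (LinearMap.ker f) = 2 := by omega
    rw [h3, Nat.card_zmod] at h2
    have h4 : Nat.card (LinearMap.ker f).toAddSubgroup = p ^ 2 := h2
    rw [h4, h]
    ring

theorem card_half {m n : ℕ} (hm : m = 1 ∨ m = p ∨ m = p ^ 2 ∨ m = p ^ 3)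
    (hn : n = 1 ∨ n = p ∨ n = p ^ 2 ∨ n = p ^ 3) (h : m < n) : p * m ≤ n := by
  have key : ∀ m : ℕ, (m = 1 ∨ m = p ∨ m = p ^ 2 ∨ m = p ^ 3) → ∃ i, m = p ^ i := by
    rintro m (h | h | h | h)
    · exact ⟨0, by rw [h, pow_zero]⟩
    · exact ⟨1, by rw [h, pow_one]⟩
    · exact ⟨2, h⟩
    · exact ⟨3, h⟩
  obtain ⟨i, rfl⟩ := key m hm
  obtain ⟨j, rfl⟩ := key n hn
  have h1 : i < j := (Nat.pow_lt_pow_iff_right hp.out.one_lt).1 h
  rw [← pow_succ']
  exact Nat.pow_le_pow_right hp.out.pos h1

include hC hq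

theorem vsub_subConj {W W' : AddSubgroup K} (h : Nat.card W ≤ Nat.card W') :
    SubConj (vsub C W) (vsub C W') := by
  obtain ⟨c, hc⟩ := add_conj hK hC hq W W' h
  rw [subConj_iff]
  refine ⟨⟨c⁻¹, 0⟩, ?_⟩
  rintro x ⟨hx1, hx2⟩
  have hx : x = ⟨1, x.b⟩ := AffC.ext hx1 rfl
  rw [hx, conj_tr]
  refine ⟨rfl, ?_⟩
  show v (c⁻¹)⁻¹ * x.b ∈ W'
  rw [inv_inv]
  exact hc _ hx2

theorem card_aff : Nat.card (AffC C) = p ^ 3 * (p ^ 2 + p + 1) := by
  have e : AffC C ≃ K × C := ⟨fun x => (x.b, x.a), fun x => ⟨x.2, x.1⟩, fun _ => rfl, fun _ => rfl⟩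
  rw [Nat.card_congr e, Nat.card_prod, hC, hK]

theorem cop : (p ^ 3).Coprime (p ^ 2 + p + 1) := by
  refine Nat.Coprime.pow_left 3 ?_
  rw [Nat.coprime_primes hp.out hq]
  have := hp.out.one_lt
  nlinarith

theorem good_aff : Good (SubCl (AffC C)) := by
  have hp1 := hp.out.one_lt
  have hp3 : 1 < p ^ 3 := Nat.one_lt_pow (by norm_num) hp1
  have hq1 := hq.one_lt
  intro x
  induction x using Quotient.inductionOn with
  | h H =>
    change Set.Iio (SubCl.mk H) = ∅ ∨ (∃ x', Set.Iio (SubCl.mk H) = Set.Iic x') ∨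
      ∃ v c b, Set.Iio (SubCl.mk H) = Set.Iic v ∪ Set.Iic c ∧ Set.Iic v ∩ Set.Iic c = Set.Iic b
    by_cases h : ∃ x ∈ H, x.a ≠ 1
    · rcases classify hK hC hq H h with rfl | ⟨h1, h2⟩
      · right; right
        refine ⟨SubCl.mk (vsub C ⊤), SubCl.mk (hsub C), SubCl.mk ⊥, ?_, ?_⟩
        · ext y
          induction y using Quotient.inductionOn with
          | h L =>
            change SubCl.mk L < SubCl.mk ⊤ ↔ SubCl.mk L ≤ SubCl.mk (vsub C ⊤) ∨
              SubCl.mk L ≤ SubCl.mk (hsub C)
            rw [mk_lt_mk, SubCl.mk_le_mk, SubCl.mk_le_mk]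
            constructor
            · rintro ⟨_, h4⟩
              by_cases h5 : ∃ x ∈ L, x.a ≠ 1
              · rcases classify hK hC hq L h5 with h6 | h6
                · rw [h6] at h4
                  exact absurd h4 (lt_irrefl _)
                · exact Or.inr h6.1
              · push Not at h5
                exact Or.inl (SubConj.of_le (fun x hx => ⟨h5 x hx, trivial⟩))
            · intro h3
              refine ⟨SubConj.of_le le_top, ?_⟩
              rw [Subgroup.card_top, card_aff hK hC hq]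
              rcases h3 with h3 | h3
              · have := Nat.le_of_dvd Nat.card_pos h3.card_dvd
                rw [card_vsub, AddSubgroup.card_top, hK] at this
                nlinarith
              · have := Nat.le_of_dvd Nat.card_pos h3.card_dvd
                rw [card_hsub, hC] at this
                nlinarith
        · ext y
          induction y using Quotient.inductionOn with
          | h L =>
            change (SubCl.mk L ≤ SubCl.mk (vsub C ⊤) ∧ SubCl.mk L ≤ SubCl.mk (hsub C)) ↔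
              SubCl.mk L ≤ SubCl.mk ⊥
            rw [SubCl.mk_le_mk, SubCl.mk_le_mk, SubCl.mk_le_mk]
            constructor
            · rintro ⟨h3, h4⟩
              have h5 := h3.card_dvd
              have h6 := h4.card_dvd
              rw [card_vsub, AddSubgroup.card_top, hK] at h5
              rw [card_hsub, hC] at h6
              have h8 : Nat.card L = 1 := Nat.eq_one_of_dvd_coprimes (cop hK hC hq) h5 h6
              rw [Subgroup.card_eq_one] at h8
              rw [h8]
              exact SubConj.refl _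
            · intro h3
              exact ⟨h3.trans (SubConj.bot _), h3.trans (SubConj.bot _)⟩
      · right; left
        refine ⟨SubCl.mk ⊥, ?_⟩
        ext y
        induction y using Quotient.inductionOn with
        | h L =>
          change SubCl.mk L < SubCl.mk H ↔ SubCl.mk L ≤ SubCl.mk ⊥
          rw [mk_lt_mk, SubCl.mk_le_mk, h2]
          constructor
          · rintro ⟨h3, h4⟩
            have h5 := h3.card_dvd
            rw [h2] at h5
            have h8 : Nat.card L = 1 := by
              rcases (Nat.dvd_prime hq).1 h5 with h6 | h6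
              · exact h6
              · omega
            rw [Subgroup.card_eq_one] at h8
            rw [h8]
            exact SubConj.refl _
          · intro h3
            refine ⟨h3.trans (SubConj.bot _), ?_⟩
            have := Nat.le_of_dvd Nat.card_pos h3.card_dvd
            rw [Subgroup.card_bot] at this
            omega
    · push Not at h
      have hH := eq_vsub h
      set W := tpart H with hW
      have hcard : Nat.card H = Nat.card W := by rw [hH, card_vsub]
      by_cases h1 : Nat.card W = 1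
      · left
        rw [Set.eq_empty_iff_forall_notMem]
        intro y
        induction y using Quotient.inductionOn with
        | h L =>
          change ¬ SubCl.mk L < SubCl.mk H
          rw [mk_lt_mk, hcard, h1]
          rintro ⟨_, h3⟩
          have : 0 < Nat.card L := Nat.card_pos
          omega
      · right; left
        obtain ⟨W₁, hW₁⟩ := exists_half hK W h1
        refine ⟨SubCl.mk (vsub C W₁), ?_⟩
        ext y
        induction y using Quotient.inductionOn with
        | h L =>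
          change SubCl.mk L < SubCl.mk H ↔ SubCl.mk L ≤ SubCl.mk (vsub C W₁)
          rw [mk_lt_mk, SubCl.mk_le_mk, hcard]
          constructor
          · rintro ⟨h3, h4⟩
            rw [hH] at h3
            have h5 := eq_vsub (a_of_subConj h3)
            rw [h5] at h4 ⊢
            rw [card_vsub] at h4
            refine vsub_subConj hK hC hq ?_
            have h6 := card_half hK (card_cases hK _) (card_cases hK W) h4
            rw [← hW₁] at h6
            exact Nat.le_of_mul_le_mul_left h6 hp.out.pos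
          · intro h3
            have h4 := Nat.le_of_dvd Nat.card_pos h3.card_dvd
            rw [card_vsub] at h4
            have h5 : 0 < Nat.card W₁ := Nat.card_pos
            have h6 : Nat.card W₁ < Nat.card W := by rw [← hW₁]; nlinarith
            refine ⟨?_, by omega⟩
            rw [hH]
            exact h3.trans (vsub_subConj hK hC hq h6.le)

omit hC hq

theorem irr_aff : Irr (AffC C) 3 := by
  let b := Module.finBasisOfFinrankEq (ZMod p) K (finrank_eq hK)
  let T : Finset (AffC C) := Finset.univ.map ⟨fun i : Fin 3 => (⟨1, b i⟩ : AffC C),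
    fun i j hij => b.injective (congrArg AffC.b hij)⟩
  have hT : T.card = 3 := by rw [Finset.card_map, Finset.card_univ, Fintype.card_fin]
  refine ⟨T, hT, ?_⟩
  intro t ht hcl
  obtain ⟨i, _, rfl⟩ := Finset.mem_map.1 ht
  have h1 : Subgroup.closure {x : AffC C | x ∈ T ∧ x ≠ (⟨1, b i⟩ : AffC C)} ≤
      vsub C (LinearMap.ker (b.coord i)).toAddSubgroup := by
    rw [Subgroup.closure_le]
    rintro y ⟨hy, hne⟩
    obtain ⟨j, _, rfl⟩ := Finset.mem_map.1 hy
    refine ⟨rfl, ?_⟩
    show b.coord i (b j) = 0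
    rw [Module.Basis.coord_apply, Module.Basis.repr_self, Finsupp.single_apply, if_neg]
    rintro rfl
    exact hne rfl
  have h2 := (h1 hcl).2
  have h3 : b.coord i (b i) = 0 := h2
  rw [Module.Basis.coord_apply, Module.Basis.repr_self, Finsupp.single_apply, if_pos rfl] at h3
  exact one_ne_zero h3

end Main

theorem exists_aff (p : ℕ) (hp : p.Prime) (hq : (p ^ 2 + p + 1).Prime) :
    ∃ (G : Type) (_ : Group G) (_ : Finite G), Nat.card G = p ^ 3 * (p ^ 2 + p + 1) ∧
      GoodN 1 (SubCl G) ∧ Irr G 3 := by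
  haveI : Fact p.Prime := ⟨hp⟩
  haveI : Fact (p ^ 2 + p + 1).Prime := ⟨hq⟩
  have hK : Nat.card (GaloisField p 3) = p ^ 3 := GaloisField.card p 3 (by norm_num)
  obtain ⟨x, hx⟩ := exists_prime_orderOf_dvd_card' (G := (GaloisField p 3)ˣ) (p ^ 2 + p + 1)
    ⟨p - 1, by rw [card_units hK, Nat.mul_comm]⟩
  have hC : Nat.card (Subgroup.zpowers x) = p ^ 2 + p + 1 := by
    rw [Nat.card_zpowers, hx]
  exact ⟨AffC (Subgroup.zpowers x), inferInstance, inferInstance, card_aff hK hC hq,
    goodN_of_good (good_aff hK hC hq), irr_aff hK⟩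

theorem step {G H : Type} [Group G] [Finite G] [Group H] [Finite H] {a b m n : ℕ}
    (hc : (Nat.card G).Coprime (Nat.card H)) (h1 : GoodN a (SubCl G)) (h2 : GoodN b (SubCl H))
    (h3 : Irr G m) (h4 : Irr H n) : GoodN (a + b + 1) (SubCl (G × H)) ∧ Irr (G × H) (m + n) :=
  ⟨goodN_prod_group hc h1 h2, h3.prod h4⟩

theorem qinj {p r : ℕ} (h : p ^ 2 + p + 1 = r ^ 2 + r + 1) : p = r := by
  rcases lt_trichotomy p r with h1 | h1 | h1
  · nlinarith
  · exact h1
  · nlinarith

theorem cop_aff {p r : ℕ} (hp : p.Prime) (hq : (p ^ 2 + p + 1).Prime) (hr : r.Prime)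
    (hs : (r ^ 2 + r + 1).Prime) (h1 : p ≠ r) (h2 : p ≠ r ^ 2 + r + 1) (h3 : r ≠ p ^ 2 + p + 1) :
    (p ^ 3 * (p ^ 2 + p + 1)).Coprime (r ^ 3 * (r ^ 2 + r + 1)) := by
  refine Nat.Coprime.mul_left (Nat.Coprime.mul_right ?_ ?_) (Nat.Coprime.mul_right ?_ ?_)
  · exact Nat.Coprime.pow 3 3 ((Nat.coprime_primes hp hr).2 h1)
  · exact Nat.Coprime.pow_left 3 ((Nat.coprime_primes hp hs).2 h2)
  · exact Nat.Coprime.pow_right 3 ((Nat.coprime_primes hq hr).2 h3.symm)
  · exact (Nat.coprime_primes hq hs).2 (fun h => h1 (qinj h))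

theorem exists_S (p₀ : ℕ) (S : Finset ℕ) : p₀ ∉ S →
    (∀ p ∈ insert p₀ S, p.Prime ∧ (p ^ 2 + p + 1).Prime ∧ p ^ 2 + p + 1 ∉ insert p₀ S) →
    ∃ (G : Type) (_ : Group G) (_ : Finite G),
      Nat.card G = ∏ p ∈ insert p₀ S, p ^ 3 * (p ^ 2 + p + 1) ∧
      GoodN (2 * S.card + 1) (SubCl G) ∧ Irr G (3 * S.card + 3) := by
  classical
  induction S using Finset.induction with
  | empty =>
    intro _ h
    obtain ⟨h1, h2, _⟩ := h p₀ (Finset.mem_insert_self _ _)
    obtain ⟨G, _, _, k1, k2, k3⟩ := exists_aff p₀ h1 h2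
    exact ⟨G, inferInstance, inferInstance, by
      rw [k1, insert_empty_eq, Finset.prod_singleton], k2, k3⟩
  | insert r S hr ih =>
    intro hp₀ h
    have hne : p₀ ≠ r := fun h => hp₀ (by rw [h]; exact Finset.mem_insert_self _ _)
    have hp₀S : p₀ ∉ S := fun h => hp₀ (Finset.mem_insert_of_mem h)
    rw [Finset.insert_comm] at h ⊢
    have hrS : r ∉ insert p₀ S := by
      rw [Finset.mem_insert]
      rintro (h | h)
      · exact hne h.symm
      · exact hr h
    obtain ⟨G, _, _, k1, k2, k3⟩ := ih hp₀S (fun p hp => by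
      obtain ⟨a1, a2, a3⟩ := h p (Finset.mem_insert_of_mem hp)
      exact ⟨a1, a2, fun a4 => a3 (Finset.mem_insert_of_mem a4)⟩)
    obtain ⟨b1, b2, b3⟩ := h r (Finset.mem_insert_self _ _)
    obtain ⟨H, _, _, l1, l2, l3⟩ := exists_aff r b1 b2
    have hc : (Nat.card G).Coprime (Nat.card H) := by
      rw [k1, l1]
      refine Nat.Coprime.prod_left fun p hp => ?_
      obtain ⟨a1, a2, a3⟩ := h p (Finset.mem_insert_of_mem hp)
      refine cop_aff a1 a2 b1 b2 ?_ ?_ ?_
      · rintro rfl; exact hrS hp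
      · intro e; exact b3 (e ▸ Finset.mem_insert_of_mem hp)
      · intro e; exact a3 (e ▸ Finset.mem_insert_self _ _)
    obtain ⟨m1, m2⟩ := step hc k2 l2 k3 l3
    refine ⟨G × H, inferInstance, inferInstance, ?_, ?_, ?_⟩
    · rw [Nat.card_prod, k1, l1, Finset.prod_insert hrS, Nat.mul_comm]
    · rw [Finset.card_insert_of_notMem hr]
      have e : 2 * (S.card + 1) + 1 = 2 * S.card + 1 + 1 + 1 := by omega
      rw [e]
      exact m1
    · rw [Finset.card_insert_of_notMem hr]
      have e : 3 * (S.card + 1) + 3 = 3 * S.card + 3 + 3 := by omega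
      rw [e]
      exact m2

theorem exists_SR (p₀ : ℕ) (S : Finset ℕ) (hp₀ : p₀ ∉ S)
    (hS : ∀ p ∈ insert p₀ S, p.Prime ∧ (p ^ 2 + p + 1).Prime ∧ p ^ 2 + p + 1 ∉ insert p₀ S)
    (R : Finset ℕ) : (∀ r ∈ R, r.Prime ∧ ∀ p ∈ insert p₀ S, r ≠ p ∧ r ≠ p ^ 2 + p + 1) →
    ∃ (G : Type) (_ : Group G) (_ : Finite G),
      Nat.card G = (∏ p ∈ insert p₀ S, p ^ 3 * (p ^ 2 + p + 1)) * ∏ r ∈ R, r ∧
      GoodN (2 * S.card + 1 + R.card) (SubCl G) ∧ Irr G (3 * S.card + 3 + R.card) := by
  classical
  induction R using Finset.induction with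
  | empty =>
    intro _
    obtain ⟨G, _, _, k1, k2, k3⟩ := exists_S p₀ S hp₀ hS
    exact ⟨G, inferInstance, inferInstance, by
      rw [k1, Finset.prod_empty, Nat.mul_one], k2, k3⟩
  | insert r R hr ih =>
    intro h
    obtain ⟨G, _, _, k1, k2, k3⟩ := ih (fun p hp => h p (Finset.mem_insert_of_mem hp))
    obtain ⟨b1, b2⟩ := h r (Finset.mem_insert_self _ _)
    haveI : Fact r.Prime := ⟨b1⟩
    have hcr : Nat.card (Multiplicative (ZMod r)) = r := by
      rw [Nat.card_congr Multiplicative.toAdd, Nat.card_zmod]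
    haveI : Finite (Multiplicative (ZMod r)) := inferInstance
    have hc : (Nat.card G).Coprime (Nat.card (Multiplicative (ZMod r))) := by
      rw [k1, hcr]
      refine Nat.Coprime.mul_left (Nat.Coprime.prod_left fun p hp => ?_)
        (Nat.Coprime.prod_left fun p hp => ?_)
      · obtain ⟨a1, a2, _⟩ := hS p hp
        obtain ⟨c1, c2⟩ := b2 p hp
        refine Nat.Coprime.mul_left (Nat.Coprime.pow_left 3 ((Nat.coprime_primes a1 b1).2 c1.symm))
          ((Nat.coprime_primes a2 b1).2 c2.symm)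
      · rw [Nat.coprime_primes (h p (Finset.mem_insert_of_mem hp)).1 b1]
        rintro rfl
        exact hr hp
    have h4 : Irr (Multiplicative (ZMod r)) 1 := by
      refine irr_one (Multiplicative.ofAdd (1 : ZMod r)) ?_
      intro h
      have h5 : (1 : ZMod r) = 0 := h
      exact one_ne_zero h5
    obtain ⟨m1, m2⟩ := step hc k2 (goodN_prime (by rw [hcr]; exact b1)) k3 h4
    refine ⟨G × Multiplicative (ZMod r), inferInstance, inferInstance, ?_, ?_, ?_⟩
    · rw [Nat.card_prod, k1, hcr, Finset.prod_insert hr]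
      ring
    · rw [Finset.card_insert_of_notMem hr]
      exact m1
    · rw [Finset.card_insert_of_notMem hr]
      exact m2

/-- The main theorem. -/
theorem main (S R : Finset ℕ) (hne : S.Nonempty)
    (hS : ∀ p ∈ S, p.Prime ∧ (p ^ 2 + p + 1).Prime ∧ p ^ 2 + p + 1 ∉ S)
    (hR : ∀ r ∈ R, r.Prime ∧ ∀ p ∈ S, r ≠ p ∧ r ≠ p ^ 2 + p + 1) :
    ∃ (G : Type) (_ : Group G) (_ : Finite G),
      Nat.card G = (∏ p ∈ S, p ^ 3 * (p ^ 2 + p + 1)) * ∏ r ∈ R, r ∧
      ∀ (𝕜 : Type) [Field 𝕜],
        gldim (ModuleCat.{0} (IncidenceAlgebra 𝕜 (SubCl G))) ≤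
          ((2 * S.card + R.card : ℕ) : WithBot ℕ∞) ∧
        ((3 * S.card + R.card : ℕ) : WithBot ℕ∞) ≤ gldim (Coef 𝕜 G) := by
  classical
  obtain ⟨p₀, hp₀⟩ := hne
  obtain ⟨S', hS', rfl⟩ : ∃ S' : Finset ℕ, p₀ ∉ S' ∧ S = insert p₀ S' :=
    ⟨S.erase p₀, Finset.notMem_erase _ _, (Finset.insert_erase hp₀).symm⟩
  obtain ⟨G, _, _, h1, h2, h3⟩ := exists_SR p₀ S' hS' hS R hR
  refine ⟨G, inferInstance, inferInstance, h1, fun 𝕜 _ => ⟨?_, ?_⟩⟩
  · have : Fintype (SubCl G) := Fintype.ofFinite _
    have h4 := gldim_ia_le' (𝕜 := 𝕜) h2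
    rw [Finset.card_insert_of_notMem hS']
    have e : 2 * (S'.card + 1) + R.card = 2 * S'.card + 1 + R.card + 1 := by omega
    rw [e]
    exact h4
  · have h5 := h3.ge 𝕜
    rw [Finset.card_insert_of_notMem hS']
    have e : 3 * (S'.card + 1) + R.card = 3 * S'.card + 3 + R.card := by omega
    rw [e]
    exact h5

end H68ICP
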